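import Pool.Agent.Helper96.GU.St

/-!
Project GU (MP_2c90c1_al), module FLD: the homology case.
-/

set_option autoImplicit false

namespace Pool.Agent.Helper92.GU

open Pool.Agent.Helper96.UT hiding StTOP TopV TopE tht Bd VC EC
open Pool.Agent.Helper96.GU

theorem tFLD : StLVD → StDUA → StTOW → StFLD := by
  intro hLVD hDUA hTOW α Z L hH hs hGen w hw hwn
  classical
  obtain ⟨S, hS⟩ := fin_EXZ Z.s hwn
  choose rep hrep using (rep_EXZ : ∀ g : FreeGroup α, ∃ w : List (α × Bool), FreeGroup.mk w = g)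
  obtain ⟨q, hq1, hq2⟩ := hGen w hw
  set o : FreeGroup α ⧸ L := ((1 : FreeGroup α) : FreeGroup α ⧸ L) with ho
  set v : FreeGroup α ⧸ (⊤ : Subgroup (FreeGroup α)) :=
    ((1 : FreeGroup α) : FreeGroup α ⧸ (⊤ : Subgroup (FreeGroup α))) with hv
  have hsub : Subsingleton (FreeGroup α ⧸ (⊤ : Subgroup (FreeGroup α))) :=
    QuotientGroup.subsingleton_quotient_top
  have hvx : ∀ x : FreeGroup α ⧸ (⊤ : Subgroup (FreeGroup α)), x = v :=
    fun x => Subsingleton.elim x v
  have hoL : ∀ g : FreeGroup α, act o g = o ↔ g ∈ L := by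
    intro g
    have h1 := act_coset_eq_EXZ L g 1
    rwa [act_one, inv_one, mul_one] at h1
  have hqE : InE (CE Z o) o q := by
    have h1 := InG_InE (v := o) (fun h hh => (hoL h).2 hh) hq1
    rwa [act_one] at h1
  have hqL : FreeGroup.mk q ∈ L := by rw [hq2]; exact hw
  have hcl : FreeGroup.mk q ∈ Subgroup.closure {x : FreeGroup α | ∃ w ∈ S.image rep,
      x = FreeGroup.mk w * Z.s * (FreeGroup.mk w)⁻¹} := by
    rw [hq2]
    refine Subgroup.closure_mono ?_ hS
    rintro x ⟨g, hg, rfl⟩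
    refine ⟨rep g, Finset.mem_image_of_mem rep (by exact_mod_cast hg), ?_⟩
    rw [hrep]
  have hres := hTOW α Z L hs (FreeGroup α ⧸ L) o hoL (S.image rep) q hqE hqL hcl
    (FreeGroup α ⧸ (⊤ : Subgroup (FreeGroup α))) v Set.univ ∅
    { inv := fun _ _ _ => trivial
      bas := trivial
      fix := fun _ _ => Subsingleton.elim _ _
      cel := fun _ _ => Or.inl trivial
      r2 := (hDUA α Z _ _ o Set.univ ∅).2 (hLVD α Z L hH _ v hvx _ o hoL) }
  rwa [hq2] at hres

end Pool.Agent.Helper92.GU
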